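import Mathlib

/-!
# Closed 1-forms on a punctured space of dimension at least three are exact
-/

set_option autoImplicit false

namespace Pool.Agent.helper25.B2

open Set Filter Topology

section PO

variable {E : Type*} [NormedAddCommGroup E]

/-- Poincaré lemma on a star-shaped open set -/
theorem PO_star [NormedSpace ℝ E] {θ : E → E →L[ℝ] ℝ} {U : Set E} (hU : IsOpen U) {c : E}
    (hc : ∀ x ∈ U, segment ℝ c x ⊆ U) (hθ : ∀ x ∈ U, DifferentiableAt ℝ θ x)
    (hclosed : ∀ x ∈ U, ∀ v w : E, fderiv ℝ θ x v w = fderiv ℝ θ x w v) :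
    ∀ x ∈ U, HasFDerivAt (fun y => curveIntegral θ (.segment c y)) (θ x) x := by
  intro x hx
  have hK : IsCompact (segment ℝ c x) := by
    rw [segment_eq_image_lineMap]
    exact isCompact_Icc.image (AffineMap.lineMap_continuous)
  obtain ⟨ε, hε, hsub⟩ := hK.exists_thickening_subset_open hU (hc x hx)
  have hV : IsOpen (Metric.thickening ε (segment ℝ c x)) := Metric.isOpen_thickening
  have hVc : Convex ℝ (Metric.thickening ε (segment ℝ c x)) := (convex_segment c x).thickening ε
  have hcV : c ∈ Metric.thickening ε (segment ℝ c x) :=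
    Metric.self_subset_thickening hε _ (left_mem_segment ℝ c x)
  have hxV : x ∈ Metric.thickening ε (segment ℝ c x) :=
    Metric.self_subset_thickening hε _ (right_mem_segment ℝ c x)
  have h := hVc.hasFDerivWithinAt_curveIntegral_segment_of_hasFDerivWithinAt_symmetric
    (ω := θ) (dω := fderiv ℝ θ)
    (fun y hy => (hθ y (hsub hy)).hasFDerivAt.hasFDerivWithinAt)
    (fun y hy v _ w _ => hclosed y (hsub hy) v w) hcV hxV
  exact h.hasFDerivAt (hV.mem_nhds hxV)

variable [InnerProductSpace ℝ E]

/-- the complement of the closed ray `{-s e : s ≥ 0}` -/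
def PO_U (e : E) : Set E := {x | ¬ (x = inner ℝ e x • e ∧ inner ℝ e x ≤ 0)}

theorem PO_U_open (e : E) : IsOpen (PO_U e) := by
  have hc : Continuous fun x : E => (inner ℝ e x : ℝ) := continuous_const.inner continuous_id
  have h : IsClosed {x : E | x = inner ℝ e x • e ∧ inner ℝ e x ≤ 0} := by
    refine IsClosed.inter ?_ ?_
    · exact isClosed_eq continuous_id (hc.smul continuous_const)
    · exact isClosed_le hc continuous_const
  exact h.isOpen_compl

theorem PO_U_star {e : E} (he : ‖e‖ = 1) : ∀ x ∈ PO_U e, segment ℝ e x ⊆ PO_U e := by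
  rintro x hx y ⟨a, t, ha, ht, hat, rfl⟩
  rintro ⟨h1, h2⟩
  have hee : inner ℝ e e = (1 : ℝ) := by rw [real_inner_self_eq_norm_sq, he]; norm_num
  rw [inner_add_right, inner_smul_right, inner_smul_right, hee, mul_one] at h1 h2
  rcases ht.eq_or_lt with h0 | h0
  · subst h0
    simp only [add_zero] at hat
    subst hat
    linarith
  · apply hx
    constructor
    · have h3 : t • x = t • (inner ℝ e x • e) := by
        have h4 : t • x = (a + t * inner ℝ e x) • e - a • e := by rw [← h1]; abel
        rw [h4, ← sub_smul, smul_smul]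
        congr 1
        ring
      exact smul_right_injective E h0.ne' h3
    · by_contra h5
      push Not at h5
      nlinarith

theorem PO_inter {e : E} (he : ‖e‖ = 1) :
    PO_U e ∩ PO_U (-e) = ((Submodule.span ℝ {e} : Submodule ℝ E) : Set E)ᶜ := by
  have hee : inner ℝ e e = (1 : ℝ) := by rw [real_inner_self_eq_norm_sq, he]; norm_num
  ext x
  simp only [PO_U, mem_inter_iff, mem_ofPred_eq, mem_compl_iff, SetLike.mem_coe,
    Submodule.mem_span_singleton, inner_neg_left, smul_neg, neg_smul, neg_neg,
    Left.neg_nonpos_iff]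
  constructor
  · rintro ⟨h1, h2⟩ ⟨a, rfl⟩
    have h3 : inner ℝ e (a • e) = a := by rw [inner_smul_right, hee, mul_one]
    rw [h3] at h1 h2
    rcases le_total a 0 with h | h
    · exact h1 ⟨rfl, h⟩
    · exact h2 ⟨rfl, h⟩
  · intro h
    exact ⟨fun h1 => h ⟨_, h1.1.symm⟩, fun h1 => h ⟨_, h1.1.symm⟩⟩

theorem PO_union {e : E} {x : E} : x ≠ 0 ↔ x ∈ PO_U e ∨ x ∈ PO_U (-e) := by
  simp only [PO_U, mem_ofPred_eq, inner_neg_left, smul_neg, neg_smul, neg_neg,
    Left.neg_nonpos_iff]
  constructor
  · intro hx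
    by_contra h
    push Not at h
    apply hx
    have h1 := h.1
    have h2 := h.2
    have h3 : inner ℝ e x = (0 : ℝ) := le_antisymm h1.2 h2.2
    rw [h1.1, h3, zero_smul]
  · rintro h rfl
    simp at h

/-- PO: closed 1-forms on a punctured space of dimension at least three are exact. -/
theorem exact_punctured {E : Type*} [NormedAddCommGroup E] [InnerProductSpace ℝ E]
    [FiniteDimensional ℝ E]
    (hE : 2 < Module.finrank ℝ E) {θ : E → E →L[ℝ] ℝ} (hθ : ∀ x : E, x ≠ 0 → DifferentiableAt ℝ θ x)
    (hclosed : ∀ x : E, x ≠ 0 → ∀ v w : E, fderiv ℝ θ x v w = fderiv ℝ θ x w v) :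
    ∃ f : E → ℝ, ∀ x : E, x ≠ 0 → HasFDerivAt f (θ x) x := by
  classical
  have hnt : Nontrivial E := Module.nontrivial_of_finrank_pos (R := ℝ) (by omega)
  obtain ⟨e, he⟩ := exists_norm_eq E (zero_le_one' ℝ)
  have he' : ‖-e‖ = 1 := by rw [norm_neg]; exact he
  have hp := PO_star (PO_U_open e) (PO_U_star he) (fun x hx => hθ x (PO_union.2 (Or.inl hx)))
    (fun x hx => hclosed x (PO_union.2 (Or.inl hx)))
  have hm := PO_star (PO_U_open (-e)) (PO_U_star he')
    (fun x hx => hθ x ((PO_union (e := e)).2 (Or.inr hx)))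
    (fun x hx => hclosed x ((PO_union (e := e)).2 (Or.inr hx)))
  set f := fun y => curveIntegral θ (.segment e y) with hf
  set g := fun y => curveIntegral θ (.segment (-e) y) with hg
  have hopen : IsOpen (PO_U e ∩ PO_U (-e)) := (PO_U_open e).inter (PO_U_open (-e))
  have hconn : IsPreconnected (PO_U e ∩ PO_U (-e)) := by
    rw [PO_inter he]
    refine (isConnected_compl_of_one_lt_codim ?_).isPreconnected
    have h1 : Module.finrank ℝ (Submodule.span ℝ {e}) ≤ 1 := by
      have := finrank_span_le_card (R := ℝ) ({e} : Set E)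
      simpa using this
    have h2 := Submodule.finrank_quotient_add_finrank (Submodule.span ℝ {e} : Submodule ℝ E)
    rw [← Module.finrank_eq_rank]
    have : 1 < Module.finrank ℝ (E ⧸ (Submodule.span ℝ {e} : Submodule ℝ E)) := by omega
    exact_mod_cast this
  obtain ⟨a, ha⟩ := hopen.exists_eq_add_of_fderiv_eq hconn (f := f) (g := g)
    (fun x hx => (hp x hx.1).differentiableAt.differentiableWithinAt)
    (fun x hx => (hm x hx.2).differentiableAt.differentiableWithinAt)
    (fun x hx => by
      show fderiv ℝ f x = fderiv ℝ g x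
      rw [(hp x hx.1).fderiv, (hm x hx.2).fderiv])
  refine ⟨fun x => if x ∈ PO_U e then f x else g x + a, fun x hx => ?_⟩
  rcases (PO_union (e := e)).1 hx with h | h
  · refine (hp x h).congr_of_eventuallyEq ?_
    filter_upwards [(PO_U_open e).mem_nhds h] with y hy
    rw [if_pos hy]
  · refine ((hm x h).add_const a).congr_of_eventuallyEq ?_
    filter_upwards [(PO_U_open (-e)).mem_nhds h] with y hy
    by_cases hy' : y ∈ PO_U e
    · rw [if_pos hy']
      exact ha ⟨hy', hy⟩
    · rw [if_neg hy']

end PO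

end Pool.Agent.helper25.B2
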